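import Pool.Agent.H418.KS.Base
import Pool.Graph.R_pool_sql_team_seeded_64922ed1.Results.MP_768c9c_nt.PrescribedValues

/-!
# The values of the counterexamples to the question of Kahane and Saias at the primes

The answer to Q1 is negative, and more: complex numbers `a(p)`, `p ∈ P`, `P` a finite set of primes,
are the values at `P` of a CMO function `f` with `S_f(x) = o(x^(-1/2))` if and only if
`|a(p)| < p^(-1/2)` for all `p ∈ P`; and then `S_f(x) = O(x^(-1/2-c))`, `c > 0`, can be achieved. The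
values can also be prescribed at infinite sets of primes which are thin.
-/

set_option autoImplicit false

namespace Pool.Agent.Results.MP_768c9c_nt.PrescribedCounterexamples

open Filter Topology Finset Asymptotics
open Pool.Agent.H418.KS
open Pool.Agent.X26.CM (repl repl_one repl_mul repl_in repl_out)
open Pool.Agent.Results.MP_768c9c_nt.PrescribedValues (choose_exponent summable_finite
  lt_one_of_small)

/-- `f` (only its values at `n ≥ 1` matter) is a CMO function: completely multiplicative, with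
`∑ f(n)` convergent to `0` -/
structure IsCMO (f : ℕ → ℂ) : Prop where
  one : f 1 = 1
  mul : ∀ m n : ℕ, 1 ≤ m → 1 ≤ n → f (m * n) = f m * f n
  sum_zero : Tendsto (fun N : ℕ => ∑ n ∈ Icc 1 N, f n) atTop (𝓝 0)

/-- the partial sum `S_f(x) = ∑_{n ≤ x} f(n)` -/
noncomputable def partialSum (f : ℕ → ℂ) (x : ℝ) : ℂ := ∑ n ∈ Icc 1 ⌊x⌋₊, f n

/-- `S_f(x) = o(x^(-1/2))` -/
def Small (f : ℕ → ℂ) : Prop := (partialSum f) =o[atTop] (fun x : ℝ => x ^ (-(1 / 2 : ℝ)))

/-- `S_f(x) = O(x^(-1/2-c))` for some `c > 0` -/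
def Fast (f : ℕ → ℂ) : Prop :=
  ∃ c C : ℝ, 0 < c ∧ ∀ x : ℝ, 1 ≤ x → ‖partialSum f x‖ ≤ C * x ^ (-(1 / 2 : ℝ) - c)

lemma fast_of_nat (g : ℕ → ℂ) (c C : ℝ) (hc : 0 < c) (hC : 0 ≤ C)
    (h : ∀ N : ℕ, 1 ≤ N → ‖∑ n ∈ Icc 1 N, g n‖ ≤ C * (N : ℝ) ^ (-(1 / 2 + c))) : Fast g :=
  ⟨c, C * 2 ^ (1 / 2 + c), hc, fun x hx =>
    Pool.Agent.Results.MP_768c9c_nt.PrescribedValues.partialSum_of_nat g c C hc hC h x hx⟩

lemma small_of_fast (f : ℕ → ℂ) (h : Fast f) : Small f := by
  obtain ⟨c, C, hc, hb⟩ := h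
  exact Pool.Agent.Results.MP_768c9c_nt.PrescribedValues.littleO_of_bound f c C hc hb

lemma real_of_mul (f : ℕ → ℂ) (h1 : f 1 = 1)
    (hf : ∀ m n : ℕ, 1 ≤ m → 1 ≤ n → f (m * n) = f m * f n)
    (hp : ∀ p : ℕ, p.Prime → (f p).im = 0) (n : ℕ) (hn : 1 ≤ n) : (f n).im = 0 := by
  induction n using Nat.strong_induction_on with
  | _ n ih =>
    rcases Nat.lt_or_ge n 2 with h | h
    · have : n = 1 := by omega
      rw [this, h1, Complex.one_im]
    · obtain ⟨p, hpp, m, rfl⟩ := Nat.exists_prime_and_dvd (show n ≠ 1 by omega)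
      have hm : 1 ≤ m := by
        rcases Nat.eq_zero_or_pos m with h0 | h0
        · subst h0; simp at hn
        · exact h0
      have hlt : m < p * m := by
        have := hpp.one_lt
        nlinarith
      rw [hf p m hpp.one_lt.le hm, Complex.mul_im, hp p hpp, ih m hlt hm, mul_zero, zero_mul,
        add_zero]

/-- The answer to Q1 is negative, and the values at the primes of the counterexamples are described.

(1) There is an absolute constant `c₀ > 0` with the following property. Let `P` be a set of primes with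
`∑_{p ∈ P} p^(-c₀) < ∞` and let `a(p)`, `p ∈ P`, be complex numbers with `|a(p)| < p^(-1/2)` and
`∑_{p ∈ P} |a(p)| p^(1/2+η) < ∞` for some `η > 0`. Then there is a CMO function `f` with `f(p) = a(p)`
for all `p ∈ P` and `S_f(x) = O(x^(-1/2-c))` for some `c > 0`; it is real valued if the numbers `a(p)`
are real.

(2) Let `P` be a finite set of primes and `a(p)`, `p ∈ P`, complex numbers. There is a CMO function
`f` with `f(p) = a(p)` for all `p ∈ P` and `S_f(x) = o(x^(-1/2))` if and only if `|a(p)| < p^(-1/2)`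
for all `p ∈ P`; and if and only if there is one with `S_f(x) = O(x^(-1/2-c))` for some `c > 0`. -/
theorem result :
    (∃ c₀ : ℝ, 0 < c₀ ∧ ∀ (P : Set ℕ) (a : ℕ → ℂ), (∀ p ∈ P, p.Prime) →
      (∀ p ∈ P, ‖a p‖ * Real.sqrt p < 1) →
      (Summable fun p : ℕ => P.indicator (fun p => (p : ℝ) ^ (-c₀)) p) →
      (∃ η : ℝ, 0 < η ∧
        Summable fun p : ℕ => P.indicator (fun p => ‖a p‖ * (p : ℝ) ^ (1 / 2 + η)) p) →
      ∃ f : ℕ → ℂ, IsCMO f ∧ Fast f ∧ (∀ p ∈ P, f p = a p) ∧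
        ((∀ p ∈ P, (a p).im = 0) → ∀ n : ℕ, 1 ≤ n → (f n).im = 0)) ∧
    (∀ (P : Set ℕ) (a : ℕ → ℂ), P.Finite → (∀ p ∈ P, p.Prime) →
      ((∃ f : ℕ → ℂ, IsCMO f ∧ Small f ∧ ∀ p ∈ P, f p = a p) ↔
        ∀ p ∈ P, ‖a p‖ * Real.sqrt p < 1) ∧
      ((∃ f : ℕ → ℂ, IsCMO f ∧ Fast f ∧ ∀ p ∈ P, f p = a p) ↔
        ∀ p ∈ P, ‖a p‖ * Real.sqrt p < 1)) := by
  have main : ∃ c₀ : ℝ, 0 < c₀ ∧ ∀ (P : Set ℕ) (a : ℕ → ℂ), (∀ p ∈ P, p.Prime) →
      (∀ p ∈ P, ‖a p‖ * Real.sqrt p < 1) →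
      (Summable fun p : ℕ => P.indicator (fun p => (p : ℝ) ^ (-c₀)) p) →
      (∃ η : ℝ, 0 < η ∧
        Summable fun p : ℕ => P.indicator (fun p => ‖a p‖ * (p : ℝ) ^ (1 / 2 + η)) p) →
      ∃ f : ℕ → ℂ, IsCMO f ∧ Fast f ∧ (∀ p ∈ P, f p = a p) ∧
        ((∀ p ∈ P, (a p).im = 0) → ∀ n : ℕ, 1 ≤ n → (f n).im = 0) := by
    obtain ⟨f₀, c, C, hc, hC, hf1, hfm, hfb⟩ := exists_f0
    set F : ℕ → ℂ := fun n => ((f₀ n : ℝ) : ℂ) with hF
    have hF1 : F 1 = 1 := by simp only [hF]; rw [hf1, Complex.ofReal_one]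
    have hFm : ∀ m n : ℕ, 1 ≤ m → 1 ≤ n → F (m * n) = F m * F n := by
      intro m n hm hn
      simp only [hF]
      rw [hfm m n hm hn, Complex.ofReal_mul]
    have hFb : ∀ N : ℕ, 1 ≤ N → ‖∑ n ∈ Icc 1 N, F n‖ ≤ C * (N : ℝ) ^ (-(1 / 2 + c)) := by
      intro N hN
      have h2 : ∑ n ∈ Icc 1 N, F n = ((∑ n ∈ Icc 1 N, f₀ n : ℝ) : ℂ) := by
        simp only [hF]
        push_cast
        rfl
      rw [h2, Complex.norm_real, Real.norm_eq_abs, neg_add']
      exact hfb N hN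
    refine ⟨c / 2, by positivity, ?_⟩
    rintro P a hPp ha hthin ⟨η, hη, ha2⟩
    obtain ⟨δ, hδ0, hδc, hδη, -, hδP⟩ := choose_exponent P a hPp ha η (c / 2) hη
      (by positivity) ha2
    have e1 : (1 / 2 + c) - (c - δ) = 1 / 2 + δ := by ring
    obtain ⟨C', hC', hb'⟩ := replace F hF1 hFm (1 / 2 + c) C (by positivity) hFb (c - δ)
      (by linarith) (by linarith) P a hPp (fun p hp => by rw [e1]; exact hδP p hp)
      (by
        refine Summable.of_nonneg_of_le
          (fun p => Set.indicator_nonneg (fun p _ => by positivity) _) (fun p => ?_) hthin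
        by_cases h : p ∈ P
        · rw [Set.indicator_of_mem h, Set.indicator_of_mem h]
          exact Real.rpow_le_rpow_of_exponent_le (by exact_mod_cast (hPp p h).one_lt.le)
            (by linarith)
        · rw [Set.indicator_of_notMem h, Set.indicator_of_notMem h])
      (by
        refine Summable.of_nonneg_of_le
          (fun p => Set.indicator_nonneg (fun p _ => by positivity) _) (fun p => ?_) ha2
        by_cases h : p ∈ P
        · rw [Set.indicator_of_mem h, Set.indicator_of_mem h, e1]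
          exact mul_le_mul_of_nonneg_left (Real.rpow_le_rpow_of_exponent_le
            (by exact_mod_cast (hPp p h).one_lt.le) (by linarith)) (norm_nonneg _)
        · rw [Set.indicator_of_notMem h, Set.indicator_of_notMem h])
    rw [e1] at hb'
    refine ⟨repl P a F, ⟨repl_one P a F, fun m n _ _ => repl_mul P a F m n,
      Pool.Agent.Results.MP_768c9c_nt.PrescribedValues.sum_zero_of_rpow _ δ C' hδ0 hb'⟩,
      fast_of_nat _ δ C' hδ0 hC' hb', fun p hp => repl_in P a F p (hPp p hp) hp, ?_⟩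
    intro hreal n hn
    refine real_of_mul (repl P a F) (repl_one P a F) (fun m n _ _ => repl_mul P a F m n)
      (fun p hp => ?_) n hn
    by_cases h : p ∈ P
    · rw [repl_in P a F p hp h]
      exact hreal p h
    · rw [repl_out P a F p hp h]
      exact Complex.ofReal_im _
  refine ⟨main, fun P a hfin hPp => ?_⟩
  have hnec : ∀ f : ℕ → ℂ, IsCMO f → Small f → (∀ p ∈ P, f p = a p) →
      ∀ p ∈ P, ‖a p‖ * Real.sqrt p < 1 := by
    intro f hf hs hfa p hp
    rw [← hfa p hp]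
    exact lt_one_of_small f hf.one hf.mul hs p (hPp p hp)
  have hsuf : (∀ p ∈ P, ‖a p‖ * Real.sqrt p < 1) →
      ∃ f : ℕ → ℂ, IsCMO f ∧ Fast f ∧ ∀ p ∈ P, f p = a p := by
    intro ha
    obtain ⟨c₀, -, h⟩ := main
    obtain ⟨f, h1, h2, h3, -⟩ := h P a hPp ha (summable_finite P hfin _)
      ⟨1, one_pos, summable_finite P hfin _⟩
    exact ⟨f, h1, h2, h3⟩
  refine ⟨⟨?_, ?_⟩, ?_, hsuf⟩
  · rintro ⟨f, h1, h2, h3⟩
    exact hnec f h1 h2 h3
  · intro ha
    obtain ⟨f, h1, h2, h3⟩ := hsuf ha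
    exact ⟨f, h1, small_of_fast f h2, h3⟩
  · rintro ⟨f, h1, h2, h3⟩
    exact hnec f h1 (small_of_fast f h2) h3

end Pool.Agent.Results.MP_768c9c_nt.PrescribedCounterexamples
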